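import Pool.Agent.Y580.FL.Base

/-! The canonical forms of the types and flags. -/

set_option autoImplicit false
set_option maxRecDepth 100000

namespace Pool.Agent.Q263.K5P
open Pool.Agent.H122R2.N6

def TP_0 : ℕ := 0x3f3e3d3c3b3a393837363534333231302f2e2d2c2b2a292827262524232221201f1e1d1c1b1a191817161514131211100f0e0d0c0b0a090807060504030201003f3b2f2b1f1b0f0b3e3a2e2a1e1a0e0a3d392d291d190d093c382c281c180c0837332723171307033632262216120602353125211511050134302420141004003f3b3e3a3d393c382f2b2e2a2d292c281f1b1e1a1d191c180f0b0e0a0d090c0837333632353134302723262225212420171316121511141007030602050104003f1f3d1d371735153b1b3919331331112f0f2d0d270725052b0b2909230321013e1e3c1c361634143a1a3818321230102e0e2c0c260624042a0a2808220220003f3e3b3a3d3c39382f2e2b2a2d2c2928373633323534313027262322252421201f1e1b1a1d1c19180f0e0b0a0d0c0908171613121514111007060302050401003f3d1f1d373517153b391b19333113113e3c1e1c363416143a381a18323012102f2d0f0d272507052b290b09232103012e2c0e0c262406042a280a08222002003f3d3b393e3c3a381f1d1b191e1c1a183735333136343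23017151311161412102f2d2b292e2c2a280f0d0b090e0c0a08272523212624222007050301060402003f372f273e362e261f170f071e160e063d352d253c342c241d150d051c140c043b332b233a322a221b130b031a120a02393129213830282019110901181008003f3e3d3c3b3a393837363534333231302f2e2d2c2b2a292827262524232221201f1e1d1c1b1a191817161514131211100f0e0d0c0b0a090807060504030201003f3d37351f1d17153e3c36341e1c16143b3933311b1913113a3832301a1812102f2d27250f0d07052e2c26240e0c06042b2923210b0903012a2822200a0802003f3d3e3c3b393a3837353634333132301f1d1e1c1b191a1817151614131112102f2d2e2c2b292a2827252624232122200f0d0e0c0b090a0807050604030102003f373e362f272e263d353c342d252c241f171e160f070e061d151c140d050c043b333a322b232a2239313830292128201b131a120b030a0219111810090108003f3e3d3c3b3a393837363534333231302f2e2d2c2b2a292827262524232221201f1e1d1c1b1a191817161514131211100f0e0d0c0b0a090807060504030201003f3e37362f2e27263d3c35342d2c25243b3a33322b2a232239383130292821201f1e17160f0e07061d1c15140d0c05041b1a13120b0a030219181110090801003f3e3d3c3b3a393837363534333231302f2e2d2c2b2a292827262524232221201f1e1d1c1b1a191817161514131211100f0e0d0c0b0a090807060504030201003f3e3d3c3b3a393837363534333231302f2e2d2c2b2a292827262524232221201f1e1d1c1b1a191817161514131211100f0e0d0c0b0a09080706050403020100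

def TP : ℕ := TP_0

def RT : ℕ := 0x4332322132212110

def rho (c : ℕ) : ℕ := Nat.mod (Nat.shiftRight RT (Nat.mul 4 c)) 16

def pc (c i : ℕ) : ℕ := Nat.mod (Nat.shiftRight TP (Nat.mul 8 (Nat.add (Nat.mul 64 c) i))) 256

theorem rng : (nall 16 fun c => and (Nat.blt (rho c) 5) (nall 64 fun i => Nat.blt (pc c i) 64)) = true := by
  decide +kernel

theorem rho_lt {c : ℕ} (h : c < 16) : rho c < 5 := by
  have := nall_true rng c h
  rw [Bool.and_eq_true] at this
  exact Nat.le_of_ble_eq_true this.1

theorem pc_lt {c i : ℕ} (h : c < 16) (hi : i < 64) : pc c i < 64 := by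
  have := nall_true rng c h
  rw [Bool.and_eq_true] at this
  exact Nat.le_of_ble_eq_true (nall_true this.2 i hi)

/-- the right side with the product term of two disjoint triples -/
def ZG (A W b012 b013 b023 b123 b014 b024 b124 b034 b134 b234 b015 b025 b125 b035 b135 b235 b045 b145 b245 b345 : ℕ) : ℕ :=
  Nat.add A (Nat.mul W (Nat.add (Nat.mod (Nat.mul 12 (Nat.add b012 b345)) 16) (Nat.add (Nat.mod (Nat.mul 12 (Nat.add b013 b245)) 16) (Nat.add (Nat.mod (Nat.mul 12 (Nat.add b023 b145)) 16) (Nat.add (Nat.mod (Nat.mul 12 (Nat.add b123 b045)) 16) (Nat.add (Nat.mod (Nat.mul 12 (Nat.add b014 b235)) 16) (Nat.add (Nat.mod (Nat.mul 12 (Nat.add b024 b135)) 16) (Nat.add (Nat.mod (Nat.mul 12 (Nat.add b124 b035)) 16) (Nat.add (Nat.mod (Nat.mul 12 (Nat.add b034 b125)) 16) (Nat.add (Nat.mod (Nat.mul 12 (Nat.add b134 b025)) 16) (Nat.mod (Nat.mul 12 (Nat.add b234 b015)) 16)))))))))))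

end Pool.Agent.Q263.K5P
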