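import Pool.Agent.Q263.K5P.Cmn

/-! The product term of two disjoint triples, and averages of polynomials of the codegrees. -/

set_option autoImplicit false
set_option maxRecDepth 100000
set_option maxHeartbeats 4000000
open Finset

namespace Pool.Agent.Q263.K5P
open Pool.Agent.H122R2.N6 Pool.Agent.H37R3.Pen Pool.Agent.H37R3.K5 Pool.Agent.Y580.FL

section
variable {V : Type} {E : V → V → V → ℕ}

theorem zz0 (hE : Sy E) (A W : ℕ) (a b c d e f : V) :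
    ZE E (ZG A W) b a c d e f = ZE E (ZG A W) a b c d e f := by
  have h : ∀ z, E b a z = E a b z := fun z => hE.h213 a b z
  simp only [ZE, ZG, h, Nat.add_eq, Nat.mul_eq]
  ring

theorem zz1 (hE : Sy E) (A W : ℕ) (a b c d e f : V) :
    ZE E (ZG A W) a c b d e f = ZE E (ZG A W) a b c d e f := by
  have h : ∀ z, E c b z = E b c z := fun z => hE.h213 b c z
  have h2 : E a c b = E a b c := hE.h132 a b c
  simp only [ZE, ZG, h, h2, Nat.add_eq, Nat.mul_eq]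
  ring

theorem zz2 (hE : Sy E) (A W : ℕ) (a b c d e f : V) :
    ZE E (ZG A W) a b d c e f = ZE E (ZG A W) a b c d e f := by
  have h : ∀ z, E d c z = E c d z := fun z => hE.h213 c d z
  have h2 : ∀ z, E z d c = E z c d := fun z => hE.h132 z c d
  simp only [ZE, ZG, h, h2, Nat.add_eq, Nat.mul_eq]
  ring

theorem zz3 (hE : Sy E) (A W : ℕ) (a b c d e f : V) :
    ZE E (ZG A W) a b c e d f = ZE E (ZG A W) a b c d e f := by
  have h : ∀ z, E e d z = E d e z := fun z => hE.h213 d e z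
  have h2 : ∀ z, E z e d = E z d e := fun z => hE.h132 z d e
  simp only [ZE, ZG, h, h2, Nat.add_eq, Nat.mul_eq]
  ring

end

section
variable {V : Type} [Fintype V] {E : V → V → V → ℕ}

/-- the term of one split -/
def zt (E : V → V → V → ℕ) (a b c d e f : V) : ℤ := (((12 * (E a b c + E d e f)) % 16 : ℕ) : ℤ)

theorem zt_eq (hE : Sy E) (a b c d e f : V) :
    zt E a b c d e f = 12 * (E a b c : ℤ) + 12 * (E d e f : ℤ) - 16 * ((E a b c : ℤ) * (E d e f : ℤ)) := by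
  unfold zt
  rcases hE.b a b c with h | h <;> rcases hE.b d e f with h' | h' <;> rw [h, h'] <;> norm_num

theorem sum_zt (hE : Sy E) :
    ∑ x : Fin 6 → V, zt E (x 0) (x 1) (x 2) (x 3) (x 4) (x 5) ≤ 9 * (Fintype.card V : ℤ) ^ 6 := by
  rw [conv6 (fun a b c d e f => zt E a b c d e f)]
  simp only [zt_eq hE]
  set n : ℤ := (Fintype.card V : ℤ) with hn
  set S : ℤ := ∑ a : V, ∑ b : V, ∑ c : V, (E a b c : ℤ) with hS
  have h1 : ∑ a : V, ∑ b : V, ∑ c : V, ∑ d : V, ∑ e : V, ∑ f : V,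
      (12 * (E a b c : ℤ) + 12 * (E d e f : ℤ) - 16 * ((E a b c : ℤ) * (E d e f : ℤ)))
      = 24 * n ^ 3 * S - 16 * S ^ 2 := by
    have e1 : ∀ a b c : V, ∑ d : V, ∑ e : V, ∑ f : V,
      (12 * (E a b c : ℤ) + 12 * (E d e f : ℤ) - 16 * ((E a b c : ℤ) * (E d e f : ℤ)))
      = 12 * n ^ 3 * (E a b c : ℤ) + 12 * S - 16 * S * (E a b c : ℤ) := by
      intro a b c
      simp only [sum_sub_distrib, sum_add_distrib, ← mul_sum, sum_const, card_univ, nsmul_eq_mul]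
      rw [← hS, ← hn]
      ring
    simp only [e1]
    simp only [sum_sub_distrib, sum_add_distrib, ← mul_sum, sum_const, card_univ, nsmul_eq_mul]
    rw [← hS, ← hn]
    ring
  rw [h1]
  nlinarith [sq_nonneg (4 * S - 3 * n ^ 3)]

theorem sumZ (hE : Sy E) (A W : ℕ) :
    ∑ x : Fin 6 → V, (ZE E (ZG A W) (x 0) (x 1) (x 2) (x 3) (x 4) (x 5) : ℤ)
      ≤ ((A : ℤ) + 90 * W) * (Fintype.card V : ℤ) ^ 6 := by
  have e : ∀ a b c d e f : V, (ZE E (ZG A W) a b c d e f : ℤ) =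
      (A : ℤ) + W * (zt E a b c d e f + (zt E a b d c e f + (zt E a c d b e f + (zt E b c d a e f
        + (zt E a b e c d f + (zt E a c e b d f + (zt E b c e a d f + (zt E a d e b c f
        + (zt E b d e a c f + zt E c d e a b f))))))))) := by
    intro a b c d e f
    simp only [ZE, ZG, zt, Nat.add_eq, Nat.mul_eq]
    push_cast
    rfl
  have f4 : ∀ i0 i1 i2 i3 i4 i5 : Fin 6, Function.Injective ![i0, i1, i2, i3, i4, i5] →
      ∑ x : Fin 6 → V, zt E (x i0) (x i1) (x i2) (x i3) (x i4) (x i5)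
      = ∑ x : Fin 6 → V, zt E (x 0) (x 1) (x 2) (x 3) (x 4) (x 5) :=
    fun i0 i1 i2 i3 i4 i5 hg =>
      psum (fun a b c d e f => zt E a b c d e f) ![i0, i1, i2, i3, i4, i5]
        (Finite.injective_iff_bijective.mp hg)
  simp only [e, sum_add_distrib, ← mul_sum]
  rw [f4 0 1 3 2 4 5 (by decide), f4 0 2 3 1 4 5 (by decide), f4 1 2 3 0 4 5 (by decide),
    f4 0 1 4 2 3 5 (by decide), f4 0 2 4 1 3 5 (by decide), f4 1 2 4 0 3 5 (by decide),
    f4 0 3 4 1 2 5 (by decide), f4 1 3 4 0 2 5 (by decide), f4 2 3 4 0 1 5 (by decide)]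
  have h := sum_zt hE
  have hc : ∑ _x : Fin 6 → V, (A : ℤ) = A * (Fintype.card V : ℤ) ^ 6 := by
    rw [sum_const, card_univ, Fintype.card_fun, Fintype.card_fin, nsmul_eq_mul]
    push_cast
    ring
  rw [hc]
  have hW : (0 : ℤ) ≤ W := by positivity
  have h2 := mul_le_mul_of_nonneg_left h hW
  nlinarith

end

section
variable {V : Type} [Fintype V] (E : V → V → V → ℕ)

theorem avg_poly (hE : Sy E) (t : ℕ → ℤ) (A0 A1 A2 A3 A4 R : ℤ)
    (h0 : t 0 = A0) (h1 : t 1 = A0 + A1) (h2 : t 2 = A0 + 2 * A1 + A2)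
    (h3 : t 3 = A0 + 3 * A1 + 3 * A2 + A3) (h4 : t 4 = A0 + 4 * A1 + 6 * A2 + 4 * A3 + A4)
    (hb : 45 * T2 E t ≤ R * (Fintype.card V : ℤ) ^ 6) (f : ℝ → ℝ) (g K : ℝ) (hK : 0 < K)
    (hpoly : ∀ d : ℝ, 45 * ((A0 : ℝ) + 4 * A1 * d + 6 * A2 * d ^ 2 + 4 * A3 * d ^ 3 + A4 * d ^ 4)
      = K * f d) (hR : (R : ℝ) = K * g) (hn : 0 < Fintype.card V) :
    ∑ a, ∑ b, f (dn E a b) ≤ g * (Fintype.card V : ℝ) ^ 2 := by
  have hn' : (0 : ℝ) < (Fintype.card V : ℝ) := by exact_mod_cast hn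
  have e1 : T2 E t = ∑ a, ∑ b, (A0 * (Fintype.card V : ℤ) ^ 4
      + 4 * A1 * (Fintype.card V : ℤ) ^ 3 * (∑ c, (E a b c : ℤ))
      + 6 * A2 * (Fintype.card V : ℤ) ^ 2 * (∑ c, (E a b c : ℤ)) ^ 2
      + 4 * A3 * (Fintype.card V : ℤ) * (∑ c, (E a b c : ℤ)) ^ 3 + A4 * (∑ c, (E a b c : ℤ)) ^ 4) := by
    unfold T2
    exact sum_congr rfl fun a _ => sum_congr rfl fun b _ =>
      mom (E a b) (hE.b a b) t A0 A1 A2 A3 A4 h0 h1 h2 h3 h4
  rw [e1] at hb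
  have hb' : (45 : ℝ) * ∑ a, ∑ b, ((A0 : ℝ) * (Fintype.card V : ℝ) ^ 4
      + 4 * A1 * (Fintype.card V : ℝ) ^ 3 * (∑ c, (E a b c : ℝ))
      + 6 * A2 * (Fintype.card V : ℝ) ^ 2 * (∑ c, (E a b c : ℝ)) ^ 2
      + 4 * A3 * (Fintype.card V : ℝ) * (∑ c, (E a b c : ℝ)) ^ 3 + A4 * (∑ c, (E a b c : ℝ)) ^ 4)
      ≤ R * (Fintype.card V : ℝ) ^ 6 := by exact_mod_cast hb
  have e2 : (45 : ℝ) * ∑ a, ∑ b, ((A0 : ℝ) * (Fintype.card V : ℝ) ^ 4
      + 4 * A1 * (Fintype.card V : ℝ) ^ 3 * (∑ c, (E a b c : ℝ))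
      + 6 * A2 * (Fintype.card V : ℝ) ^ 2 * (∑ c, (E a b c : ℝ)) ^ 2
      + 4 * A3 * (Fintype.card V : ℝ) * (∑ c, (E a b c : ℝ)) ^ 3 + A4 * (∑ c, (E a b c : ℝ)) ^ 4)
      = K * (Fintype.card V : ℝ) ^ 4 * ∑ a, ∑ b, f (dn E a b) := by
    rw [mul_sum, mul_sum]
    refine sum_congr rfl fun a _ => ?_
    rw [mul_sum, mul_sum]
    refine sum_congr rfl fun b _ => ?_
    have e3 : (∑ c, (E a b c : ℝ)) = dn E a b * (Fintype.card V : ℝ) := by
      unfold dn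
      field_simp
    rw [e3]
    have e4 := hpoly (dn E a b)
    calc _ = (Fintype.card V : ℝ) ^ 4 * (45 * ((A0 : ℝ) + 4 * A1 * dn E a b + 6 * A2 * dn E a b ^ 2
          + 4 * A3 * dn E a b ^ 3 + A4 * dn E a b ^ 4)) := by ring
      _ = _ := by rw [e4]; ring
  rw [e2, hR] at hb'
  have h5 : K * (Fintype.card V : ℝ) ^ 4 * ∑ a, ∑ b, f (dn E a b)
      ≤ K * (Fintype.card V : ℝ) ^ 4 * (g * (Fintype.card V : ℝ) ^ 2) := by
    calc _ ≤ _ := hb'
      _ = _ := by ring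
  exact le_of_mul_le_mul_left h5 (by positivity)

end

end Pool.Agent.Q263.K5P
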