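import Pool.Agent.Q263.K5P.VDFin
import Pool.Agent.Q263.K5P.VEFin
import Pool.Agent.TH200.LPk

/-! Two inequalities between the number of edges and the squares of the codegrees of a
`K_5^3`-free 3-graph. -/

set_option autoImplicit false
open Finset
open scoped Classical

namespace Pool.Agent.Q263.K5P.EC
open Pool.Agent.H122R2.N6 Pool.Agent.H37R3.Pen Pool.Agent.H37R3.K5

/-- the number of vertices completing `x`, `y` to an edge of `H` -/
noncomputable def cg {n : ℕ} (H : Finset (Finset (Fin n))) (x y : Fin n) : ℕ :=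
  (univ.filter fun z => {x, y, z} ∈ H).card

theorem dn_tri {n : ℕ} (H : Finset (Finset (Fin n))) (x y : Fin n) :
    dn (tri H) x y = (cg H x y : ℝ) / n := by
  unfold dn cg
  rw [Fintype.card_fin]
  congr 1
  rw [card_filter]
  push_cast
  refine sum_congr rfl fun z _ => ?_
  unfold tri
  push_cast
  split_ifs with h1 h2 h2
  · rfl
  · exact absurd (Eq.mp (congrArg (· ∈ H) (Finset.ext fun w => by
      simp only [mem_insert, mem_singleton])) h1) h2
  · exact absurd (Eq.mp (congrArg (· ∈ H) (Finset.ext fun w => by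
      simp only [mem_insert, mem_singleton])) h2) h1
  · rfl

/-- a quadratic inequality for the normalised codegrees in terms of the codegrees -/
theorem transfer {n : ℕ} (hn : 0 < n) (H : Finset (Finset (Fin n))) (a0 a1 a2 : ℝ)
    (h : ∑ x : Fin n, ∑ y : Fin n, (a0 + a1 * dn (tri H) x y + a2 * dn (tri H) x y ^ 2) ≤
      3 / 4 * (n : ℝ) ^ 2) :
    a1 * (n * ∑ x : Fin n, ∑ y : Fin n, (cg H x y : ℝ)) + a2 * ∑ x : Fin n, ∑ y : Fin n, (cg H x y : ℝ) ^ 2 ≤
      (3 / 4 - a0) * (n : ℝ) ^ 4 := by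
  have hn0 : (0 : ℝ) < n := by exact_mod_cast hn
  have e : ∑ x : Fin n, ∑ y : Fin n, (a0 + a1 * dn (tri H) x y + a2 * dn (tri H) x y ^ 2) =
      a0 * (n : ℝ) ^ 2 + a1 * ((∑ x : Fin n, ∑ y : Fin n, (cg H x y : ℝ)) / n) +
        a2 * ((∑ x : Fin n, ∑ y : Fin n, (cg H x y : ℝ) ^ 2) / (n : ℝ) ^ 2) := by
    simp only [dn_tri, div_pow, sum_add_distrib, ← mul_sum, ← sum_div, sum_const, card_univ,
      Fintype.card_fin, nsmul_eq_mul]
    ring
  rw [e] at h
  have h2 := mul_le_mul_of_nonneg_right h (by positivity : (0 : ℝ) ≤ (n : ℝ) ^ 2)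
  have e2 : (a0 * (n : ℝ) ^ 2 + a1 * ((∑ x : Fin n, ∑ y : Fin n, (cg H x y : ℝ)) / n) +
        a2 * ((∑ x : Fin n, ∑ y : Fin n, (cg H x y : ℝ) ^ 2) / (n : ℝ) ^ 2)) * (n : ℝ) ^ 2 =
      a0 * (n : ℝ) ^ 4 + a1 * (n * ∑ x : Fin n, ∑ y : Fin n, (cg H x y : ℝ)) +
        a2 * ∑ x : Fin n, ∑ y : Fin n, (cg H x y : ℝ) ^ 2 := by
    field_simp
  rw [e2] at h2
  linarith

theorem ineqD {n : ℕ} (H : Finset (Finset (Fin n))) (h3 : ∀ e ∈ H, e.card = 3) (hF : K53Free H) :
    6 * ∑ x : Fin n, ∑ y : Fin n, (cg H x y : ℝ) ^ 2 ≤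
      5 * (n * ∑ x : Fin n, ∑ y : Fin n, (cg H x y : ℝ)) := by
  rcases Nat.eq_zero_or_pos n with rfl | hn
  · simp
  have h := VD.avg (tri_sy H) (tri_noK5 h3 hF) (by rw [Fintype.card_fin]; exact hn)
  rw [Fintype.card_fin] at h
  have h2 := transfer hn H (3 / 4) (-5 / 4) (3 / 2) (by
    refine le_trans (le_of_eq ?_) h
    refine sum_congr rfl fun x _ => sum_congr rfl fun y _ => ?_
    unfold VD.f
    ring)
  linarith

theorem ineqE {n : ℕ} (H : Finset (Finset (Fin n))) (h3 : ∀ e ∈ H, e.card = 3) (hF : K53Free H) :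
    16 * (n * ∑ x : Fin n, ∑ y : Fin n, (cg H x y : ℝ)) +
      40 * ∑ x : Fin n, ∑ y : Fin n, (cg H x y : ℝ) ^ 2 ≤ 37 * (n : ℝ) ^ 4 := by
  rcases Nat.eq_zero_or_pos n with rfl | hn
  · simp
  have h := VE.avg (tri_sy H) (tri_noK5 h3 hF) (by rw [Fintype.card_fin]; exact hn)
  rw [Fintype.card_fin] at h
  have h2 := transfer hn H (5 / 19) (4 / 19) (10 / 19) (by
    refine le_trans (le_of_eq ?_) h
    refine sum_congr rfl fun x _ => sum_congr rfl fun y _ => ?_
    unfold VE.f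
    ring)
  linarith

/-- six times the number of edges is the sum of the codegrees -/
theorem sum_cg {n : ℕ} (H : Finset (Finset (Fin n))) (h3 : ∀ e ∈ H, e.card = 3) :
    ∑ x : Fin n, ∑ y : Fin n, cg H x y = 6 * H.card := by
  have h1 : ∑ x : Fin n, ∑ y : Fin n, cg H x y =
      ((univ : Finset (Fin n × Fin n × Fin n)).filter fun p =>
        ({p.1, p.2.1, p.2.2} : Finset (Fin n)) ∈ H).card := by
    rw [card_filter, Fintype.sum_prod_type]
    refine sum_congr rfl fun x _ => ?_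
    rw [Fintype.sum_prod_type]
    refine sum_congr rfl fun y _ => ?_
    unfold cg
    rw [card_filter]
  have hf : ∀ p ∈ ((univ : Finset (Fin n × Fin n × Fin n)).filter fun p =>
        ({p.1, p.2.1, p.2.2} : Finset (Fin n)) ∈ H),
      (fun p : Fin n × Fin n × Fin n => ({p.1, p.2.1, p.2.2} : Finset (Fin n))) p ∈ H :=
    fun p hp => (mem_filter.1 hp).2
  rw [h1, card_eq_sum_card_fiberwise hf]
  rw [sum_const_nat (m := 6), mul_comm]
  intro e he
  obtain ⟨a, b, c, hab, hac, hbc, rfl⟩ := card_eq_three.1 (h3 e he)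
  have h2 : ((univ.filter fun p : Fin n × Fin n × Fin n =>
      ({p.1, p.2.1, p.2.2} : Finset (Fin n)) ∈ H).filter fun p =>
      ({p.1, p.2.1, p.2.2} : Finset (Fin n)) = {a, b, c}) =
      {(a, b, c), (a, c, b), (b, a, c), (b, c, a), (c, a, b), (c, b, a)} := by
    ext ⟨x, y, z⟩
    simp only [mem_filter, mem_univ, true_and, mem_insert, mem_singleton, Prod.mk.injEq]
    constructor
    · rintro ⟨-, h⟩
      have hx : x ∈ ({a, b, c} : Finset (Fin n)) := by rw [← h]; simp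
      have hy : y ∈ ({a, b, c} : Finset (Fin n)) := by rw [← h]; simp
      have hz : z ∈ ({a, b, c} : Finset (Fin n)) := by rw [← h]; simp
      have ha : a ∈ ({x, y, z} : Finset (Fin n)) := by rw [h]; simp
      have hb : b ∈ ({x, y, z} : Finset (Fin n)) := by rw [h]; simp
      have hc : c ∈ ({x, y, z} : Finset (Fin n)) := by rw [h]; simp
      simp only [mem_insert, mem_singleton] at hx hy hz ha hb hc
      clear h he
      have hba := Ne.symm hab
      have hca := Ne.symm hac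
      have hcb := Ne.symm hbc
      rcases hx with hx | hx | hx <;> rcases hy with hy | hy | hy <;>
        rcases hz with hz | hz | hz <;> simp only [hx, hy, hz] at ha hb hc ⊢ <;>
        simp_all
    · intro h
      have : ({x, y, z} : Finset (Fin n)) = {a, b, c} := by
        rcases h with ⟨rfl, rfl, rfl⟩ | ⟨rfl, rfl, rfl⟩ | ⟨rfl, rfl, rfl⟩ | ⟨rfl, rfl, rfl⟩ |
          ⟨rfl, rfl, rfl⟩ | ⟨rfl, rfl, rfl⟩ <;> ext w <;> simp <;> tauto
      exact ⟨by rw [this]; exact he, this⟩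
  rw [h2]
  rw [card_insert_of_notMem, card_insert_of_notMem, card_insert_of_notMem,
    card_insert_of_notMem, card_insert_of_notMem, card_singleton]
  all_goals simp [hab, hac, hbc, Ne.symm hab, Ne.symm hac, Ne.symm hbc]

theorem sum_cg_real {n : ℕ} (H : Finset (Finset (Fin n))) (h3 : ∀ e ∈ H, e.card = 3) :
    ∑ x : Fin n, ∑ y : Fin n, (cg H x y : ℝ) = 6 * H.card := by
  exact_mod_cast sum_cg H h3

/-- the squares of the codegrees of Turán's construction -/
theorem tur_lower (ε : ℝ) (hε : 0 < ε) : ∃ N : ℕ, ∀ n : ℕ, N ≤ n →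
    (5 / 8 - ε) * (n : ℝ) ^ 4 <
      ∑ x : Fin n, ∑ y : Fin n, (cg (TH200.LP.tur 2 n) x y : ℝ) ^ 2 := by
  obtain ⟨N, hN⟩ := TH200.LP.lower 2 le_rfl 2 (by norm_num) (5 / 8 - ε) (by norm_num; linarith)
  refine ⟨N, fun n hn => ?_⟩
  have h := hN n hn
  have e1 : (n : ℝ) ^ ((2 : ℝ) + 2) = (n : ℝ) ^ 4 := by
    rw [← Real.rpow_natCast]
    norm_num
  rw [e1] at h
  refine lt_of_lt_of_le h (le_of_eq ?_)
  refine sum_congr rfl fun x _ => sum_congr rfl fun y _ => ?_
  rw [Real.rpow_two]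
  rfl

end Pool.Agent.Q263.K5P.EC
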