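import Pool.Agent.Q263.K5P.VDPart
import Pool.Agent.Q263.K5P.VDTabL
import Pool.Agent.Q263.K5P.Prod

set_option autoImplicit false
set_option maxRecDepth 100000
set_option maxHeartbeats 4000000
open Finset

namespace Pool.Agent.Q263.K5P.VD
open Pool.Agent.H122R2.N6 Pool.Agent.H37R3.Pen Pool.Agent.H37R3.K5 Pool.Agent.Y580.FL

theorem hc (b012 b013 b023 b123 b014 b024 b124 b034 b134 b234 : ℕ) (hb012 : Bt b012) (hb013 : Bt b013) (hb023 : Bt b023) (hb123 : Bt b123) (hb014 : Bt b014) (hb024 : Bt b024) (hb124 : Bt b124) (hb034 : Bt b034) (hb134 : Bt b134) (hb234 : Bt b234) (ht : tg5 b012 b013 b023 b123 b014 b024 b124 b034 b134 b234 = 4) :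
    chkZ q4 q2 Z b012 b013 b023 b123 b014 b024 b124 b034 b134 b234 = true := by
  have h : part b012 b013 = true := by
    rcases hb012 with rfl | rfl <;> rcases hb013 with rfl | rfl
    exacts [part00, part01, part10, part11]
  have h2 := (B2_true (B2_true (B2_true (B2_true (B2_true (B2_true (B2_true (B2_true h hb023) hb123) hb014) hb024) hb124) hb034) hb134) hb234)
  refine or_false_left h2 ?_
  rw [ht]
  rfl

theorem g4_all {r i j : ℕ} (hr : r < 5) (hi : i < 64) (hj : j < 64) : g4 r i j = true := by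
  have h : chk4 r = true := by
    interval_cases r
    exacts [cp0, cp1, cp2, cp3, cp4]
  exact nall_true (nall_true h i hi) j hj

theorem hq4 (c i j : ℕ) (hc : c < 16) (hi : i < 64) (hj : j < 64) : (q4 c i j : ℤ) =
    ∑ k ∈ range 6, (w4 (rho c) k : ℤ) * ((l4 (rho c) (pc c i) k : ℤ) - 16) *
      ((l4 (rho c) (pc c j) k : ℤ) - 16) + (32768 + (0 : ℤ)) := by
  have h := Nat.eq_of_beq_eq_true (g4_all (rho_lt hc) (pc_lt hc hi) (pc_lt hc hj))
  unfold ll sw sl at h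
  rw [nsum_eq, nsum_eq, nsum_eq, nsum_eq] at h
  have h2 := congrArg (fun n : ℕ => (n : ℤ)) h
  simp only [Nat.add_eq, Nat.mul_eq] at h2
  push_cast at h2
  rw [expand (range 6) (fun k => w4 (rho c) k) (fun k => l4 (rho c) (pc c i) k)
    (fun k => l4 (rho c) (pc c j) k) 16]
  have h3 : (q4 c i j : ℤ) = (tq (rho c) (pc c i) (pc c j) : ℤ) := rfl
  rw [h3]
  linarith

theorem hq2 (i j : ℕ) (hi : i < 16) (hj : j < 16) : (q2 i j : ℤ) =
    ∑ k ∈ range 2, (w2 k : ℤ) * ((l2 i k : ℤ) - 16) * ((l2 j k : ℤ) - 16)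
      + (32768 + (ct (kk i j) : ℤ)) := by
  have h := Nat.eq_of_beq_eq_true (nall_true (nall_true cpb i hi) j hj)
  unfold ll2 sw2 sl2 at h
  rw [nsum_eq, nsum_eq, nsum_eq, nsum_eq] at h
  have h2 := congrArg (fun n : ℕ => (n : ℤ)) h
  simp only [Nat.add_eq, Nat.mul_eq] at h2
  push_cast at h2
  rw [expand (range 2) (fun k => w2 k) (fun k => l2 i k) (fun k => l2 j k) 16]
  linarith

theorem ct_0 : ct 0 = 24000 := by decide +kernel

theorem ct_1 : ct 1 = 14000 := by decide +kernel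

theorem ct_2 : ct 2 = 12000 := by decide +kernel

theorem ct_3 : ct 3 = 18000 := by decide +kernel

theorem ct_4 : ct 4 = 32000 := by decide +kernel

/-- the inequality of the certificate -/
theorem main {V : Type} [Fintype V] {E : V → V → V → ℕ} (hE : Sy E) (hK : NoK5 E) :
    45 * Pool.Agent.H122R2.N6.T2 E (fun k => (ct k : ℤ)) ≤ 1080000 * (Fintype.card V : ℤ) ^ 6 := by
  have hb := boundY E hE 6 2 (ZE E Z) q4
    (fun c k => w4 (rho c) k) (fun c i k => l4 (rho c) (pc c i) k)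
    q2 w2 l2 16 32768 32768 (fun _ => 0) (fun k => (ct k : ℤ)) hq4 hq2
    (leafZ_all hE hK (fun _ _ _ _ _ _ => rfl) (fun _ _ _ _ _ _ => rfl) (fun _ _ _ _ _ _ => rfl)
      (fun _ _ _ _ _ _ => rfl) cs4 cs2 hc)
  have hz : Sv E (fun _ => 0) = 0 := by unfold Sv; simp
  rw [hz] at hb
  have h1 : ∑ x : Fin 6 → V, (ZE E Z (x 0) (x 1) (x 2) (x 3) (x 4) (x 5) : ℤ) =
      3046080 * (Fintype.card V : ℤ) ^ 6 := by
    have h2 : ∀ x : Fin 6 → V, (ZE E Z (x 0) (x 1) (x 2) (x 3) (x 4) (x 5) : ℤ) = 3046080 := fun x => rfl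
    simp only [h2]
    rw [sum_const, card_univ, Fintype.card_fun, Fintype.card_fin, nsmul_eq_mul]
    push_cast
    ring
  rw [h1] at hb
  linarith

/-- the polynomial of the certificate -/
noncomputable def f (d : ℝ) : ℝ := (3 / 4) + (-5 / 4) * d + (3 / 2) * d ^ 2 + (0) * d ^ 3 + (0) * d ^ 4

theorem avg {V : Type} [Fintype V] {E : V → V → V → ℕ} (hE : Sy E) (hK : NoK5 E)
    (hn : 0 < Fintype.card V) :
    ∑ a, ∑ b, f (dn E a b) ≤ 3 / 4 * (Fintype.card V : ℝ) ^ 2 := by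
  refine avg_poly E hE (fun k => (ct k : ℤ)) (24000) (-10000) (8000) (0) (0) 1080000
    ?_ ?_ ?_ ?_ ?_ (main hE hK) f (3 / 4) 1440000 (by norm_num) ?_ (by norm_num) hn
  · show ((ct 0 : ℕ) : ℤ) = _
    rw [ct_0]; norm_num
  · show ((ct 1 : ℕ) : ℤ) = _
    rw [ct_1]; norm_num
  · show ((ct 2 : ℕ) : ℤ) = _
    rw [ct_2]; norm_num
  · show ((ct 3 : ℕ) : ℤ) = _
    rw [ct_3]; norm_num
  · show ((ct 4 : ℕ) : ℤ) = _
    rw [ct_4]; norm_num
  · intro d
    unfold f
    push_cast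
    ring

end Pool.Agent.Q263.K5P.VD
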